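import Pool.Agent.Helper68.LM.St

/-!
# Project LM (MP_cb927e_an), module CONV: convergence along the dilates of a measure
-/

set_option autoImplicit false

open MeasureTheory Set Filter Topology Metric
open scoped ENNReal

namespace Pool.Agent.Helper23.LM

open Pool.Agent.Helper68.LM

theorem scale (F : Pl → ℝ) (z : Pl) (s : ℝ) (hs : 0 < s) :
    ∫ w in closedBall (0 : Pl) 1, F (z - s • w) = (s ^ 2)⁻¹ * ∫ y in closedBall z s, F y := by
  rw [← integral_indicator measurableSet_closedBall, ← integral_indicator measurableSet_closedBall]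
  have h1 : (fun w : Pl => (closedBall (0 : Pl) 1).indicator (fun w => F (z - s • w)) w)
      = fun w : Pl => (fun v : Pl => (closedBall z s).indicator F (z - v)) (s • w) := by
    funext w
    have hiff : w ∈ closedBall (0 : Pl) 1 ↔ z - s • w ∈ closedBall z s := by
      rw [mem_closedBall_zero_iff, mem_closedBall, dist_eq_norm]
      have : z - s • w - z = -(s • w) := by abel
      rw [this, norm_neg, norm_smul, Real.norm_of_nonneg hs.le]
      constructor
      · intro h
        nlinarith
      · intro h
        by_contra h2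
        rw [not_le] at h2
        nlinarith
    by_cases h : w ∈ closedBall (0 : Pl) 1
    · rw [indicator_of_mem h]
      show _ = (closedBall z s).indicator F (z - s • w)
      rw [indicator_of_mem (hiff.1 h)]
    · rw [indicator_of_notMem h]
      show _ = (closedBall z s).indicator F (z - s • w)
      rw [indicator_of_notMem (fun h2 => h (hiff.2 h2))]
  have h2 : Module.finrank ℝ Pl = 2 := by
    show Module.finrank ℝ (EuclideanSpace ℝ (Fin 2)) = 2
    simp
  have h3 := Measure.integral_comp_smul (volume : Measure Pl)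
    (fun v : Pl => (closedBall z s).indicator F (z - v)) s
  have h4 : ∫ v : Pl, (closedBall z s).indicator F (z - v)
      = ∫ v : Pl, (closedBall z s).indicator F v :=
    integral_sub_left_eq_self _ volume z
  rw [h1]
  refine h3.trans ?_
  rw [h4, h2, abs_of_pos (by positivity), smul_eq_mul]

theorem scale_avg (F : Pl → ℝ) (z : Pl) (s : ℝ) (hs : 0 < s) :
    ∫ w in closedBall (0 : Pl) 1, F (z - s • w)
      = (volume (ball (0 : Pl) 1)).toReal * ⨍ y in closedBall z s, F y := by
  rw [scale F z s hs, setAverage_eq, measureReal_def, Measure.addHaar_closedBall _ _ hs.le]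
  have h2 : Module.finrank ℝ Pl = 2 := by
    show Module.finrank ℝ (EuclideanSpace ℝ (Fin 2)) = 2
    simp
  rw [h2, ENNReal.toReal_mul, ENNReal.toReal_ofReal (by positivity), smul_eq_mul]
  have hV : (volume (ball (0 : Pl) 1)).toReal ≠ 0 := by
    rw [ENNReal.toReal_ne_zero]
    exact ⟨(measure_ball_pos _ _ one_pos).ne', measure_ball_lt_top.ne⟩
  field_simp

theorem sm_sub (hPH : StPH) (g : Pl → ℝ) (hg : BB g) :
    ∃ C : ℝ, ∀ (z : Pl) (s : ℝ), 0 < s →
      ‖Sm s g z - g z‖ ≤ C * ⨍ y in closedBall z s, ‖g y - g z‖ := by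
  obtain ⟨hc, h0, hsupp, hint, hI, C, hC, hCb, -⟩ := hPH
  obtain ⟨hm, K, hK, -⟩ := hg
  refine ⟨C * (volume (ball (0 : Pl) 1)).toReal, ?_⟩
  intro z s hs
  have hmz : Measurable fun w : Pl => g (z - s • w) :=
    hm.comp (measurable_const.sub (measurable_const_smul s))
  have hi1 : Integrable fun w : Pl => ph w * g (z - s • w) := by
    refine hI.mul_bdd (c := K) hmz.aestronglyMeasurable ?_
    exact Eventually.of_forall fun w => by simpa using hK (z - s • w)
  have hi2 : Integrable fun w : Pl => ph w * g z := hI.mul_const _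
  have e1 : Sm s g z - g z = ∫ w, ph w * (g (z - s • w) - g z) := by
    have : g z = ∫ w, ph w * g z := by
      rw [integral_mul_const, hint, one_mul]
    unfold Sm
    conv_lhs => rw [this]
    rw [← integral_sub hi1 hi2]
    congr 1
    funext w
    ring
  have hib : IntegrableOn (fun w : Pl => ‖g (z - s • w) - g z‖) (closedBall (0 : Pl) 1) := by
    have hfin : volume (closedBall (0 : Pl) 1) ≠ ∞ := measure_closedBall_lt_top.ne
    refine Measure.integrableOn_of_bounded (M := K + K) hfin ?_ ?_
    · exact ((hmz.sub measurable_const).norm).aestronglyMeasurable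
    · refine Eventually.of_forall fun w => ?_
      rw [norm_norm]
      refine (norm_sub_le _ _).trans ?_
      exact add_le_add (by simpa using hK (z - s • w)) (by simpa using hK z)
  calc ‖Sm s g z - g z‖ = ‖∫ w, ph w * (g (z - s • w) - g z)‖ := by rw [e1]
    _ ≤ ∫ w, (closedBall (0 : Pl) 1).indicator (fun w => C * ‖g (z - s • w) - g z‖) w := by
        refine norm_integral_le_of_norm_le ?_ ?_
        · rw [integrable_indicator_iff measurableSet_closedBall]
          exact hib.const_mul C
        · refine Eventually.of_forall fun w => ?_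
          by_cases hw : w ∈ closedBall (0 : Pl) 1
          · rw [indicator_of_mem hw, norm_mul, Real.norm_of_nonneg (h0 w)]
            exact mul_le_mul_of_nonneg_right (hCb w) (norm_nonneg _)
          · rw [indicator_of_notMem hw]
            rw [mem_closedBall_zero_iff, not_le] at hw
            rw [hsupp w hw.le, zero_mul, norm_zero]
    _ = C * ∫ w in closedBall (0 : Pl) 1, ‖g (z - s • w) - g z‖ := by
        rw [integral_indicator measurableSet_closedBall, integral_const_mul]
    _ = C * ((volume (ball (0 : Pl) 1)).toReal * ⨍ y in closedBall z s, ‖g y - g z‖) := by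
        rw [scale_avg (fun y => ‖g y - g z‖) z s hs]
    _ = C * (volume (ball (0 : Pl) 1)).toReal * ⨍ y in closedBall z s, ‖g y - g z‖ := by ring

theorem tendsto_scale (k : ℤ) :
    Tendsto (fun m : ℕ => (2 : ℝ) ^ (k - (m : ℤ))) atTop (𝓝[>] 0) := by
  rw [tendsto_nhdsWithin_iff]
  constructor
  · have h1 : (fun m : ℕ => (2 : ℝ) ^ (k - (m : ℤ))) = fun m : ℕ => (2 : ℝ) ^ k * (1 / 2 : ℝ) ^ m := by
      funext m
      rw [zpow_sub₀ (by norm_num), zpow_natCast, one_div, inv_pow]
      rfl
    rw [h1]
    have h2 := (tendsto_pow_atTop_nhds_zero_of_lt_one (by norm_num : (0 : ℝ) ≤ 1 / 2)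
      (by norm_num)).const_mul ((2 : ℝ) ^ k)
    simpa using h2
  · exact Eventually.of_forall fun m => by
      rw [mem_Ioi]
      positivity

theorem ae_sm (hPH : StPH) (g : Pl → ℝ) (hg : BB g) :
    ∀ᵐ z : Pl, ∀ k : ℤ,
      Tendsto (fun m : ℕ => Sm ((2 : ℝ) ^ (k - (m : ℤ))) g z) atTop (𝓝 (g z)) := by
  have hloc : LocallyIntegrable g volume := by
    obtain ⟨hm, K, hK, hs⟩ := hg
    refine Integrable.locallyIntegrable ?_
    have hfin : volume (closedBall (0 : Pl) K) ≠ ∞ := measure_closedBall_lt_top.ne
    have h1 : IntegrableOn g (closedBall (0 : Pl) K) :=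
      Measure.integrableOn_of_bounded (M := K) hfin hm.aestronglyMeasurable
        (Eventually.of_forall fun w => by simpa using hK w)
    refine (integrableOn_iff_integrable_of_support_subset ?_).1 h1
    intro x hx
    rw [mem_closedBall_zero_iff]
    by_contra h
    rw [not_le] at h
    exact hx (hs x h)
  obtain ⟨C, hC⟩ := sm_sub hPH g hg
  filter_upwards [IsUnifLocDoublingMeasure.ae_tendsto_average_norm_sub volume hloc 1] with z hz
  intro k
  have h1 := hz (fun _ : ℕ => z) (fun m : ℕ => (2 : ℝ) ^ (k - (m : ℤ))) (tendsto_scale k)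
    (Eventually.of_forall fun m => by
      rw [one_mul]
      exact mem_closedBall_self (by positivity))
  rw [tendsto_iff_norm_sub_tendsto_zero]
  have h2 := h1.const_mul C
  rw [mul_zero] at h2
  refine squeeze_zero (fun m => norm_nonneg _) (fun m => ?_) h2
  exact hC z _ (by positivity)

theorem ae_translate (ν : Measure Pl) [IsFiniteMeasure ν] (p : Pl → Prop)
    (hp : ∀ᵐ z : Pl, p z) (t : ℝ) : ∀ᵐ x : Pl, ∀ᵐ y ∂ν, p (x - t • y) := by
  set B : Set Pl := toMeasurable volume {z | ¬ p z} with hB
  have hBm : MeasurableSet B := measurableSet_toMeasurable _ _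
  have hB0 : volume B = 0 := by
    rw [hB, measure_toMeasurable]
    exact hp
  set S : Set (Pl × Pl) := {q | q.1 - t • q.2 ∈ B} with hS
  have hSm : MeasurableSet S := by
    have : Measurable fun q : Pl × Pl => q.1 - t • q.2 := by fun_prop
    exact this hBm
  have hS0 : ((volume : Measure Pl).prod ν) S = 0 := by
    rw [Measure.prod_apply_symm hSm, lintegral_eq_zero_iff']
    · refine Eventually.of_forall fun y => ?_
      show volume ((fun x : Pl => (x, y)) ⁻¹' S) = 0
      have h1 : (fun x : Pl => (x, y)) ⁻¹' S = (fun x : Pl => x - t • y) ⁻¹' B := by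
        ext x
        rfl
      rw [h1]
      have h2 := (measurePreserving_sub_right (volume : Measure Pl) (t • y)).measure_preimage
        hBm.nullMeasurableSet
      rw [h2, hB0]
    · exact (measurable_measure_prodMk_right hSm).aemeasurable
  have h3 := (Measure.measure_prod_null hSm).1 hS0
  filter_upwards [h3] with x hx
  have h4 : ν (Prod.mk x ⁻¹' S) = 0 := hx
  rw [ae_iff]
  refine measure_mono_null ?_ h4
  intro y hy
  exact subset_toMeasurable _ _ hy

theorem hCONV (hPH : StPH) (hBBC : StBBC) : StCONV := by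
  intro ν R L hν g hg
  have : IsFiniteMeasure ν := ⟨lt_of_le_of_lt hν.2 ENNReal.ofReal_lt_top⟩
  rw [ae_all_iff]
  intro k
  have h1 := ae_translate ν _ (ae_sm hPH g hg) ((2 : ℝ) ^ k)
  filter_upwards [h1] with x hx
  obtain ⟨K, hK⟩ : ∃ K : ℝ, ∀ x, |g x| ≤ K := ⟨_, hg.2.choose_spec.1⟩
  refine tendsto_integral_of_dominated_convergence (fun _ => K) ?_ (integrable_const K) ?_ ?_
  · intro m
    have hm := (hBBC.2.1 g ((2 : ℝ) ^ (k - (m : ℤ))) hg).1
    exact (hm.comp (measurable_const.sub (measurable_const_smul _))).aestronglyMeasurable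
  · intro m
    refine Eventually.of_forall fun y => ?_
    simpa using hBBC.2.2.2.1 g K ((2 : ℝ) ^ (k - (m : ℤ))) hK (x - (2 : ℝ) ^ k • y)
  · filter_upwards [hx] with y hy
    exact hy k

end Pool.Agent.Helper23.LM
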